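import Mathlib
import Pool.Agent.W348.RG.Stms

/-!
Project RG (MP_67ef3c_al): the group law on `exp M`.
-/

set_option autoImplicit false

open Finset Polynomial

namespace W479.RG

open Pool.Agent.W348.RG

variable {m : ℕ}

/-- matrices supported on the superdiagonals of index at least `k` -/
def Jk (m k : ℕ) : AddSubgroup (Mt m) where
  carrier := {A | ∀ i j : Fin m, (j : ℕ) < i + k → A i j = 0}
  add_mem' := by
    intro A B hA hB i j h
    rw [Matrix.add_apply, hA i j h, hB i j h, add_zero]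
  zero_mem' := by
    intro i j _
    rfl
  neg_mem' := by
    intro A hA i j h
    rw [Matrix.neg_apply, hA i j h, neg_zero]

theorem mem_Jk {k : ℕ} {x : Mt m} : x ∈ Jk m k ↔ ∀ i j : Fin m, (j : ℕ) < i + k → x i j = 0 :=
  Iff.rfl

theorem mem_Jk_one {x : Mt m} : x ∈ Jk m 1 ↔ x ∈ J m := by
  constructor
  · intro h i j hij
    exact h i j (Nat.lt_succ_of_le hij)
  · intro h i j hij
    exact h i j (Nat.le_of_lt_succ hij)

theorem Jk_mul {a b : ℕ} {x y : Mt m} (hx : x ∈ Jk m a) (hy : y ∈ Jk m b) :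
    x * y ∈ Jk m (a + b) := by
  intro i j hij
  rw [Matrix.mul_apply]
  refine Finset.sum_eq_zero (fun t _ => ?_)
  by_cases h : (t : ℕ) < i + a
  · rw [hx i t h, zero_mul]
  · rw [hy t j (by omega), mul_zero]

theorem Jk_top {x : Mt m} (hx : x ∈ Jk m m) : x = 0 := by
  ext i j
  exact hx i j (by have := j.2; omega)

theorem Jk_anti {a b : ℕ} (h : a ≤ b) : Jk m b ≤ Jk m a := by
  intro x hx i j hij
  exact hx i j (by omega)

theorem Jk_smul {a : ℕ} (q : ℚ) {x : Mt m} (hx : x ∈ Jk m a) : q • x ∈ Jk m a := by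
  intro i j hij
  rw [Matrix.smul_apply, hx i j hij, smul_zero]

/-- polynomials with all coefficients in `S` -/
def PS (S : AddSubgroup (Mt m)) : AddSubgroup (Mt m)[X] where
  carrier := {p | ∀ n, p.coeff n ∈ S}
  add_mem' := by
    intro p q hp hq n
    rw [coeff_add]
    exact S.add_mem (hp n) (hq n)
  zero_mem' := by
    intro n
    rw [coeff_zero]
    exact S.zero_mem
  neg_mem' := by
    intro p hp n
    rw [coeff_neg]
    exact S.neg_mem (hp n)

theorem mem_PS {S : AddSubgroup (Mt m)} {p : (Mt m)[X]} : p ∈ PS S ↔ ∀ n, p.coeff n ∈ S :=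
  Iff.rfl

theorem PS_mono {S T : AddSubgroup (Mt m)} (h : S ≤ T) : PS S ≤ PS T :=
  fun _ hp n => h (hp n)

theorem PS_mul {S T U : AddSubgroup (Mt m)} (h : ∀ s ∈ S, ∀ t ∈ T, s * t ∈ U)
    {p q : (Mt m)[X]} (hp : p ∈ PS S) (hq : q ∈ PS T) : p * q ∈ PS U := by
  intro n
  rw [coeff_mul]
  exact U.sum_mem (fun c _ => h _ (hp _) _ (hq _))

theorem PS_br {S T U : AddSubgroup (Mt m)} (h : ∀ s ∈ S, ∀ t ∈ T, s * t - t * s ∈ U)
    {p q : (Mt m)[X]} (hp : p ∈ PS S) (hq : q ∈ PS T) : p * q - q * p ∈ PS U := by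
  intro n
  rw [coeff_sub, coeff_mul, coeff_mul]
  rw [← Finset.Nat.sum_antidiagonal_swap (n := n) (f := fun c => q.coeff c.1 * p.coeff c.2)]
  rw [← Finset.sum_sub_distrib]
  exact U.sum_mem (fun c _ => h _ (hp _) _ (hq _))

theorem PS_C {S : AddSubgroup (Mt m)} {x : Mt m} (hx : x ∈ S) : C x ∈ PS S := by
  intro n
  rw [coeff_C]
  split
  · exact hx
  · exact S.zero_mem

theorem PS_smul {S : AddSubgroup (Mt m)} {q : ℚ} (h : ∀ x ∈ S, q • x ∈ S) {p : (Mt m)[X]}
    (hp : p ∈ PS S) : q • p ∈ PS S := by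
  intro n
  rw [coeff_smul]
  exact h _ (hp n)

theorem PS_Jk_pow {p : (Mt m)[X]} (hp : p ∈ PS (Jk m 1)) (k : ℕ) : p ^ k ∈ PS (Jk m k) := by
  induction k with
  | zero =>
    intro n i j hij
    rw [pow_zero, coeff_one]
    split
    · rw [Matrix.one_apply_ne]
      intro h
      rw [h] at hij
      omega
    · rfl
  | succ k ih =>
    rw [pow_succ]
    exact PS_mul (fun s hs t ht => Jk_mul hs ht) ih hp

theorem PS_Jk_nil {p : (Mt m)[X]} (hp : p ∈ PS (Jk m 1)) : p ^ m = 0 := by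
  ext1 n
  rw [coeff_zero]
  exact Jk_top (PS_Jk_pow hp m n)

theorem Jk_pow {x : Mt m} (hx : x ∈ Jk m 1) (k : ℕ) : x ^ k ∈ Jk m k := by
  have h := PS_Jk_pow (PS_C hx) k 0
  rw [← C_pow, coeff_C_zero] at h
  exact h

theorem Jk_nil {x : Mt m} (hx : x ∈ Jk m 1) : x ^ m = 0 := Jk_top (Jk_pow hx m)

/-- from the derivative to the polynomial -/
theorem PS_int {R : Subring ℚ} (hR : Inv m R) {S : AddSubgroup (Mt m)}
    (hS : ∀ r ∈ R, ∀ x ∈ S, r • x ∈ S) {p : (Mt m)[X]} (hd : p.natDegree ≤ Bd m)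
    (h0 : p.coeff 0 ∈ S) (h : derivative p ∈ PS S) : p ∈ PS S := by
  intro n
  rcases n with _ | n
  · exact h0
  · by_cases hn : n + 1 ≤ Bd m
    · have h1 := h n
      rw [coeff_derivative] at h1
      have h2 := hS _ (hR (n + 1) (Nat.succ_pos n) hn) _ h1
      have h3 : (((n + 1 : ℕ) : ℚ)⁻¹) • (p.coeff (n + 1) * ((n : Mt m) + 1)) =
          p.coeff (n + 1) := by
        have e : ((n : Mt m) + 1) = ((n + 1 : ℕ) : ℚ) • (1 : Mt m) := by
          rw [← Nat.cast_succ]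
          rw [Nat.cast_smul_eq_nsmul, nsmul_eq_mul, mul_one]
        rw [e, mul_smul_comm, mul_one, smul_smul, inv_mul_cancel₀, one_smul]
        exact_mod_cast Nat.succ_ne_zero n
      rw [h3] at h2
      exact h2
    · rw [coeff_eq_zero_of_natDegree_lt (by omega)]
      exact S.zero_mem

theorem PS_eval {S : AddSubgroup (Mt m)} {p : (Mt m)[X]} (hp : p ∈ PS S) : p.eval 1 ∈ S := by
  rw [eval_eq_sum_range]
  exact S.sum_mem (fun i _ => by rw [one_pow, mul_one]; exact hp i)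

/-- evaluation at `1` -/
noncomputable def ev (m : ℕ) : (Mt m)[X] →+* Mt m :=
  eval₂RingHom' (RingHom.id _) 1 (fun a => Commute.one_right a)

theorem ev_apply (p : (Mt m)[X]) : ev m p = p.eval 1 := rfl

/-- the polynomial exponential -/
noncomputable def exP (y : Mt m) : (Mt m)[X] :=
  ∑ k ∈ range m, monomial k (((k.factorial : ℚ)⁻¹) • y ^ k)

/-- `G = ex x * exp (y X)` -/
noncomputable def GG (x y : Mt m) : (Mt m)[X] := C (ex x) * exP y

/-- `F = lg G` -/
noncomputable def FF (x y : Mt m) : (Mt m)[X] :=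
  ∑ j ∈ range m, ((-1 : ℚ) ^ (j + 1) / j) • (GG x y - 1) ^ j

theorem exP_sub_one {y : Mt m} (hy : y ∈ Jk m 1) (hm : 0 < m) : exP y - 1 ∈ PS (Jk m 1) := by
  obtain ⟨k, rfl⟩ : ∃ k, m = k + 1 := ⟨m - 1, by omega⟩
  have : exP y - 1 = ∑ i ∈ range k, monomial (i + 1) ((((i + 1).factorial : ℚ)⁻¹) • y ^ (i + 1)) := by
    rw [exP, Finset.sum_range_succ']
    simp
  rw [this]
  refine AddSubgroup.sum_mem _ (fun i _ => ?_)
  intro n
  rw [coeff_monomial]
  split
  · exact Jk_smul _ (Jk_anti (by omega) (Jk_pow hy (i + 1)))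
  · exact AddSubgroup.zero_mem _

theorem ex_sub_one {x : Mt m} (hx : x ∈ Jk m 1) : ex x - 1 ∈ Jk m 1 := by
  rcases Nat.eq_zero_or_pos m with hm | hm
  · subst hm
    intro i
    exact i.elim0
  · obtain ⟨k, rfl⟩ : ∃ k, m = k + 1 := ⟨m - 1, by omega⟩
    have : ex x - 1 = ∑ i ∈ range k, ((((i + 1).factorial : ℚ)⁻¹) • x ^ (i + 1)) := by
      rw [ex, Finset.sum_range_succ']
      simp
    rw [this]
    exact AddSubgroup.sum_mem _ (fun i _ => Jk_smul _ (Jk_anti (by omega) (Jk_pow hx (i + 1))))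

theorem GG_sub_one {x y : Mt m} (hx : x ∈ Jk m 1) (hy : y ∈ Jk m 1) (hm : 0 < m) :
    GG x y - 1 ∈ PS (Jk m 1) := by
  have e : GG x y - 1 = C (ex x - 1) * (exP y - 1) + C (ex x - 1) + (exP y - 1) := by
    rw [GG, C_sub, C_1, sub_mul, mul_sub, one_mul, mul_one]
    abel
  rw [e]
  have h1 := exP_sub_one hy hm
  have h2 := PS_C (ex_sub_one hx)
  refine AddSubgroup.add_mem _ (AddSubgroup.add_mem _ ?_ h2) h1
  exact PS_mul (fun s hs t ht => Jk_anti (by omega) (Jk_mul hs ht)) h2 h1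

theorem FF_mem_Jk {x y : Mt m} (hx : x ∈ Jk m 1) (hy : y ∈ Jk m 1) (hm : 0 < m) :
    FF x y ∈ PS (Jk m 1) := by
  refine AddSubgroup.sum_mem _ (fun j _ => ?_)
  rcases j with _ | j
  · simp
  · exact PS_smul (fun x hx => Jk_smul _ hx)
      (PS_mono (Jk_anti (by omega)) (PS_Jk_pow (GG_sub_one hx hy hm) (j + 1)))

theorem GG_eq (h1 : S_expg) {x y : Mt m} (hx : x ∈ Jk m 1) (hy : y ∈ Jk m 1) (hm : 0 < m) :
    ∑ k ∈ range m, ((k.factorial : ℚ)⁻¹) • (FF x y) ^ k = GG x y := by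
  have h := (h1 (Mt m)[X] m (GG x y - 1) (PS_Jk_nil (GG_sub_one hx hy hm))).1
  rw [add_sub_cancel] at h
  exact h

theorem FF_deg (x y : Mt m) : (FF x y).natDegree ≤ Bd m := by
  have h1 : (exP y).natDegree ≤ m := by
    refine natDegree_sum_le_of_forall_le _ _ (fun k hk => ?_)
    exact (natDegree_monomial_le _).trans (Finset.mem_range.1 hk).le
  have h2 : (GG x y - 1).natDegree ≤ m := by
    refine (natDegree_sub_le _ _).trans (max_le ?_ (by simp))
    exact (natDegree_C_mul_le _ _).trans h1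
  have h3 : (FF x y).natDegree ≤ m * m := by
    refine natDegree_sum_le_of_forall_le _ _ (fun j hj => ?_)
    refine (natDegree_smul_le _ _).trans ?_
    refine natDegree_pow_le.trans ?_
    exact Nat.mul_le_mul (Finset.mem_range.1 hj).le h2
  refine h3.trans ?_
  unfold Bd
  calc m * m ≤ (4 * m + 4) ^ 2 := by nlinarith
    _ ≤ (4 * m + 4) ^ 4 := Nat.pow_le_pow_right (by omega) (by omega)

theorem FF_zero (h1 : S_expg) {x y : Mt m} (hx : x ∈ Jk m 1) (hm : 0 < m) :
    (FF x y).coeff 0 = x := by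
  have h := (h1 (Mt m) m x (Jk_nil hx)).2
  have hG : constantCoeff (GG x y) = ex x := by
    rw [GG, map_mul, constantCoeff_apply (C (ex x)), coeff_C_zero]
    have : constantCoeff (exP y) = 1 := by
      obtain ⟨k, rfl⟩ : ∃ k, m = k + 1 := ⟨m - 1, by omega⟩
      rw [exP, map_sum, Finset.sum_range_succ']
      rw [Finset.sum_eq_zero]
      · simp [constantCoeff_apply]
      · intro i _
        simp [constantCoeff_apply, coeff_monomial]
    rw [this, mul_one]
  have hF : constantCoeff (FF x y) = ∑ j ∈ range m, ((-1 : ℚ) ^ (j + 1) / j) • (ex x - 1) ^ j := by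
    rw [FF, map_sum]
    refine Finset.sum_congr rfl (fun j _ => ?_)
    have e : ∀ (q : ℚ) (p : (Mt m)[X]), constantCoeff (q • p) = q • constantCoeff p := by
      intro q p
      simp [constantCoeff_apply]
    rw [e, map_pow, map_sub, hG, map_one]
  rw [constantCoeff_apply] at hF
  rw [hF]
  exact h

theorem FF_one {x y : Mt m} : (FF x y).eval 1 = lg (ex x * ex y) := by
  have hE : ev m (exP y) = ex y := by
    rw [exP, map_sum, ex]
    refine Finset.sum_congr rfl (fun k _ => ?_)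
    rw [ev_apply, eval_monomial, one_pow, mul_one]
  have hG : ev m (GG x y) = ex x * ex y := by
    rw [GG, map_mul, hE, ev_apply, eval_C]
  have e : ∀ (q : ℚ) (p : (Mt m)[X]), ev m (q • p) = q • ev m p := by
    intro q p
    rw [ev_apply, ev_apply, eval_smul]
  rw [← ev_apply, FF, map_sum, lg]
  refine Finset.sum_congr rfl (fun j _ => ?_)
  rw [e, map_pow, map_sub, hG, map_one]

theorem der_GG {x y : Mt m} (hy : y ∈ Jk m 1) (hm : 0 < m) :
    derivative (GG x y) = GG x y * C y := by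
  rw [GG, derivative_C_mul, mul_assoc]
  congr 1
  obtain ⟨k, rfl⟩ : ∃ k, m = k + 1 := ⟨m - 1, by omega⟩
  rw [exP, map_sum, Finset.sum_mul]
  rw [Finset.sum_range_succ' (fun i => derivative _), Finset.sum_range_succ (fun i => _ * C y)]
  have h0 : derivative (monomial 0 ((((0 : ℕ).factorial : ℚ)⁻¹) • y ^ 0)) = 0 := by
    rw [monomial_zero_left, derivative_C]
  have h1 : monomial k (((k.factorial : ℚ)⁻¹) • y ^ k) * C y = 0 := by
    rw [← monomial_zero_left, monomial_mul_monomial, smul_mul_assoc, ← pow_succ, Jk_nil hy, smul_zero,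
      map_zero]
  rw [h0, h1]
  congr 1
  refine Finset.sum_congr rfl (fun i _ => ?_)
  rw [derivative_monomial, ← monomial_zero_left, monomial_mul_monomial, Nat.add_sub_cancel,
    add_zero]
  congr 1
  rw [smul_mul_assoc, smul_mul_assoc, ← pow_succ]
  have e : y ^ (i + 1) * ((i + 1 : ℕ) : Mt (k + 1)) = ((i + 1 : ℕ) : ℚ) • y ^ (i + 1) := by
    rw [Nat.cast_smul_eq_nsmul, nsmul_eq_mul, Nat.cast_comm]
  rw [e, smul_smul, Nat.factorial_succ]
  congr 1
  push_cast
  have : (i.factorial : ℚ) ≠ 0 := by exact_mod_cast i.factorial_ne_zero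
  have h2 : ((i : ℚ) + 1) ≠ 0 := by positivity
  field_simp

/-- the coefficients -/
noncomputable def cc (k : ℕ) : ℚ := (-1 : ℚ) ^ k / ((k + 1).factorial)

/-- the differential equation for `F` -/
theorem main_eq (h1 : S_expg) (h2 : S_dexp) {x y : Mt m} (hx : x ∈ Jk m 1) (hy : y ∈ Jk m 1)
    (hm : 0 < m) :
    C y = ∑ k ∈ range (2 * m), cc k •
      (fun z => FF x y * z - z * FF x y)^[k] (derivative (FF x y)) := by
  have hF := h2 (Mt m)[X] (derivative.restrictScalars ℚ) (fun a b => derivative_mul) (FF x y) m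
    (PS_Jk_nil (FF_mem_Jk hx hy hm))
  rw [GG_eq h1 hx hy hm] at hF
  simp only [LinearMap.coe_restrictScalars] at hF
  rw [der_GG hy hm] at hF
  have hu : IsUnit (GG x y) := by
    have : IsNilpotent (GG x y - 1) := ⟨m, PS_Jk_nil (GG_sub_one hx hy hm)⟩
    have h3 := this.isUnit_one_add
    rwa [add_sub_cancel] at h3
  exact hu.mul_left_cancel hF

theorem inv_fact {R : Subring ℚ} (hR : Inv m R) (k : ℕ) (hk : k ≤ Bd m) :
    ((k.factorial : ℚ))⁻¹ ∈ R := by
  induction k with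
  | zero => simp [R.one_mem]
  | succ k ih =>
    rw [Nat.factorial_succ, Nat.cast_mul, mul_inv]
    exact R.mul_mem (hR (k + 1) (Nat.succ_pos k) hk) (ih (by omega))

theorem cc_mem {R : Subring ℚ} (hR : Inv m R) {k : ℕ} (hk : k < 2 * m) : cc k ∈ R := by
  rw [cc, div_eq_mul_inv]
  refine R.mul_mem (R.pow_mem (R.neg_mem R.one_mem) _) (inv_fact hR _ ?_)
  unfold Bd
  calc k + 1 ≤ (4 * m + 4) ^ 1 := by rw [pow_one]; omega
    _ ≤ (4 * m + 4) ^ 4 := Nat.pow_le_pow_right (by omega) (by omega)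

theorem der_eq (h1 : S_expg) (h2 : S_dexp) {x y : Mt m} (hx : x ∈ Jk m 1) (hy : y ∈ Jk m 1)
    (hm : 0 < m) :
    derivative (FF x y) = C y - ∑ k ∈ range (2 * m - 1), cc (k + 1) •
      (fun z => FF x y * z - z * FF x y)^[k + 1] (derivative (FF x y)) := by
  have h := main_eq h1 h2 hx hy hm
  obtain ⟨n, hn⟩ : ∃ n, 2 * m = n + 1 := ⟨2 * m - 1, by omega⟩
  rw [hn, Finset.sum_range_succ'] at h
  rw [hn, Nat.add_sub_cancel]
  have h0 : cc 0 • (fun z => FF x y * z - z * FF x y)^[0] (derivative (FF x y)) =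
      derivative (FF x y) := by
    simp [cc]
  rw [h0] at h
  rw [h]
  abel

/-- the iterated bracket -/
theorem ad_mem {S T : AddSubgroup (Mt m)} (hTS : T ≤ S)
    (hST : ∀ s ∈ S, ∀ t ∈ S, s * t - t * s ∈ T) {f z : (Mt m)[X]} (hf : f ∈ PS S)
    (hz : z ∈ PS S) (k : ℕ) : (fun z => f * z - z * f)^[k + 1] z ∈ PS T := by
  induction k with
  | zero => exact PS_br hST hf hz
  | succ k ih =>
    rw [Function.iterate_succ_apply']
    exact PS_br hST hf (PS_mono hTS ih)

theorem ad_diff {M I I' : AddSubgroup (Mt m)} (hII : I' ≤ I)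
    (hMM : ∀ s ∈ M, ∀ t ∈ M, s * t - t * s ∈ M)
    (hMI : ∀ s ∈ M, ∀ t ∈ I, s * t - t * s ∈ I')
    {f f' z z' : (Mt m)[X]} (hf : f ∈ PS M) (hf' : f' ∈ PS M) (hz' : z' ∈ PS M)
    (hff : f - f' ∈ PS I) (hzz : z - z' ∈ PS I) (k : ℕ) :
    (fun z => f * z - z * f)^[k + 1] z - (fun z => f' * z - z * f')^[k + 1] z' ∈ PS I' := by
  have hstep : ∀ w w' : (Mt m)[X], w' ∈ PS M → w - w' ∈ PS I →
      (f * w - w * f) - (f' * w' - w' * f') ∈ PS I' := by
    intro w w' hw' hww
    have e : (f * w - w * f) - (f' * w' - w' * f') =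
        (f * (w - w') - (w - w') * f) - (w' * (f - f') - (f - f') * w') := by
      simp only [mul_sub, sub_mul]
      abel
    rw [e]
    exact AddSubgroup.sub_mem _ (PS_br hMI hf hww) (PS_br hMI hw' hff)
  induction k with
  | zero => exact hstep _ _ hz' hzz
  | succ k ih =>
    rw [Function.iterate_succ_apply', Function.iterate_succ_apply' (fun z => f' * z - z * f')]
    exact hstep _ _ (ad_mem le_rfl hMM hf' hz' k) (PS_mono hII ih)

theorem sup_smul {R : Subring ℚ} {S : AddSubgroup (Mt m)} (hS : ∀ r ∈ R, ∀ x ∈ S, r • x ∈ S)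
    (k : ℕ) : ∀ r ∈ R, ∀ x ∈ S ⊔ Jk m k, r • x ∈ S ⊔ Jk m k := by
  intro r hr x hx
  obtain ⟨s, hs, t, ht, rfl⟩ := AddSubgroup.mem_sup.1 hx
  rw [smul_add]
  exact AddSubgroup.mem_sup.2 ⟨r • s, hS r hr s hs, r • t, Jk_smul r ht, rfl⟩

theorem sup_br {S T U : AddSubgroup (Mt m)} {a b k : ℕ} (hS : S ≤ Jk m 1) (hT : T ≤ Jk m 1)
    (hU : ∀ s ∈ S, ∀ t ∈ T, s * t - t * s ∈ U) (ha : k ≤ a + 1) (hb : k ≤ b + 1)
    (hab : k ≤ a + b) :
    ∀ s ∈ S ⊔ Jk m a, ∀ t ∈ T ⊔ Jk m b, s * t - t * s ∈ U ⊔ Jk m k := by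
  intro s hs t ht
  obtain ⟨s1, hs1, s2, hs2, rfl⟩ := AddSubgroup.mem_sup.1 hs
  obtain ⟨t1, ht1, t2, ht2, rfl⟩ := AddSubgroup.mem_sup.1 ht
  refine AddSubgroup.mem_sup.2 ⟨s1 * t1 - t1 * s1, hU _ hs1 _ ht1,
    (s1 * t2 - t2 * s1) + (s2 * t1 - t1 * s2) + (s2 * t2 - t2 * s2), ?_, by noncomm_ring⟩
  refine AddSubgroup.add_mem _ (AddSubgroup.add_mem _ ?_ ?_) ?_
  · exact AddSubgroup.sub_mem _ (Jk_anti (by omega) (Jk_mul (hS hs1) ht2))
      (Jk_anti (by omega) (Jk_mul ht2 (hS hs1)))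
  · exact AddSubgroup.sub_mem _ (Jk_anti (by omega) (Jk_mul hs2 (hT ht1)))
      (Jk_anti (by omega) (Jk_mul (hT ht1) hs2))
  · exact AddSubgroup.sub_mem _ (Jk_anti (by omega) (Jk_mul hs2 ht2))
      (Jk_anti (by omega) (Jk_mul ht2 hs2))

theorem Jk_bot : Jk m m = ⊥ := by
  rw [eq_bot_iff]
  intro x hx
  exact Jk_top hx

theorem der_mem_PS {S : AddSubgroup (Mt m)} {p : (Mt m)[X]} (hp : p ∈ PS S) :
    derivative p ∈ PS S := by
  intro n
  rw [coeff_derivative]
  have e : p.coeff (n + 1) * ((n : Mt m) + 1) = (n + 1) • p.coeff (n + 1) := by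
    rw [nsmul_eq_mul, ← Nat.cast_succ, Nat.cast_comm]
  rw [e]
  exact S.nsmul_mem (hp _) _

/-- the first claim -/
theorem claim1 (h1 : S_expg) (h2 : S_dexp) {R : Subring ℚ} (hR : Inv m R)
    {M : AddSubgroup (Mt m)} (hM : IsLie R M) (hm : 0 < m) {x y : Mt m} (hx : x ∈ M)
    (hy : y ∈ M) : derivative (FF x y) ∈ PS M ∧ FF x y ∈ PS M := by
  have hMJ : M ≤ Jk m 1 := fun z hz => mem_Jk_one.2 (hM.le z hz)
  have hind : ∀ k, derivative (FF x y) ∈ PS (M ⊔ Jk m (k + 1)) := by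
    intro k
    induction k with
    | zero =>
      exact PS_mono le_sup_right (der_mem_PS (FF_mem_Jk (hMJ hx) (hMJ hy) hm))
    | succ k ih =>
      have hF : FF x y ∈ PS (M ⊔ Jk m (k + 1)) := by
        refine PS_int hR (sup_smul hM.smul (k + 1)) (FF_deg x y) ?_ ih
        rw [FF_zero h1 (hMJ hx) hm]
        exact (le_sup_left : M ≤ _) hx
      have hbr : ∀ s ∈ M ⊔ Jk m (k + 1), ∀ t ∈ M ⊔ Jk m (k + 1),
          s * t - t * s ∈ M ⊔ Jk m (k + 1 + 1) :=
        sup_br hMJ hMJ hM.br (by omega) (by omega) (by omega)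
      rw [der_eq h1 h2 (hMJ hx) (hMJ hy) hm]
      refine AddSubgroup.sub_mem _ (PS_C ((le_sup_left : M ≤ _) hy)) ?_
      refine AddSubgroup.sum_mem _ (fun j hj => ?_)
      refine PS_smul (fun z hz => sup_smul hM.smul _ _ (cc_mem hR ?_) z hz) ?_
      · have := Finset.mem_range.1 hj
        omega
      · exact ad_mem (sup_le_sup_left (Jk_anti (by omega)) M) hbr hF ih j
  have h := hind (m - 1)
  rw [Nat.sub_add_cancel hm, Jk_bot, sup_bot_eq] at h
  refine ⟨h, PS_int hR hM.smul (FF_deg x y) ?_ h⟩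
  rw [FF_zero h1 (hMJ hx) hm]
  exact hx

theorem bch (h1 : S_expg) (h2 : S_dexp) : S_bch := by
  intro m R hR M hM
  rcases Nat.eq_zero_or_pos m with hm0 | hm
  · subst hm0
    have hz : ∀ (S : AddSubgroup (Mt 0)) (z : Mt 0), z ∈ S := by
      intro S z
      have : z = 0 := by
        ext i
        exact i.elim0
      rw [this]
      exact S.zero_mem
    exact ⟨fun _ _ _ _ => hz _ _, fun I _ => ⟨fun _ _ _ _ _ _ _ _ _ _ => hz _ _,
      fun _ _ _ _ _ => hz _ _⟩⟩
  have hMJ : M ≤ Jk m 1 := fun z hz => mem_Jk_one.2 (hM.le z hz)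
  refine ⟨fun x hx y hy => ?_, fun I hI => ⟨fun x hx x' hx' y hy y' hy' hxx hyy => ?_,
    fun hMI x hx y hy => ?_⟩⟩
  · rw [← FF_one]
    exact PS_eval (claim1 h1 h2 hR hM hm hx hy).2
  · obtain ⟨hD, hF⟩ := claim1 h1 h2 hR hM hm hx hy
    obtain ⟨hD', hF'⟩ := claim1 h1 h2 hR hM hm hx' hy'
    have hIJ : I ≤ Jk m 1 := hI.le.trans hMJ
    have hint : ∀ k, derivative (FF x y - FF x' y') ∈ PS (I ⊔ Jk m (k + 1)) →
        FF x y - FF x' y' ∈ PS (I ⊔ Jk m (k + 1)) := by
      intro k ih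
      refine PS_int hR (sup_smul hI.smul (k + 1))
        ((natDegree_sub_le _ _).trans (max_le (FF_deg x y) (FF_deg x' y'))) ?_ ih
      rw [coeff_sub, FF_zero h1 (hMJ hx) hm, FF_zero h1 (hMJ hx') hm]
      exact (le_sup_left : I ≤ _) hxx
    have hind : ∀ k, derivative (FF x y - FF x' y') ∈ PS (I ⊔ Jk m (k + 1)) := by
      intro k
      induction k with
      | zero =>
        exact PS_mono le_sup_right (der_mem_PS (AddSubgroup.sub_mem _
          (FF_mem_Jk (hMJ hx) (hMJ hy) hm) (FF_mem_Jk (hMJ hx') (hMJ hy') hm)))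
      | succ k ih =>
        have hFF := hint k ih
        have hbr : ∀ s ∈ M, ∀ t ∈ I ⊔ Jk m (k + 1), s * t - t * s ∈ I ⊔ Jk m (k + 1 + 1) := by
          intro s hs t ht
          exact sup_br (a := k + 1) hMJ hIJ hI.br (by omega) (by omega) (by omega) s
            ((le_sup_left : M ≤ _) hs) t ht
        rw [derivative_sub] at ih ⊢
        rw [der_eq h1 h2 (hMJ hx) (hMJ hy) hm, der_eq h1 h2 (hMJ hx') (hMJ hy') hm]
        rw [sub_sub_sub_comm, ← C_sub, ← Finset.sum_sub_distrib]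
        refine AddSubgroup.sub_mem _ (PS_C ((le_sup_left : I ≤ _) hyy)) ?_
        refine AddSubgroup.sum_mem _ (fun j hj => ?_)
        rw [← smul_sub]
        refine PS_smul (fun z hz => sup_smul hI.smul _ _ (cc_mem hR ?_) z hz) ?_
        · have := Finset.mem_range.1 hj
          omega
        · exact ad_diff (sup_le_sup_left (Jk_anti (by omega)) I) hM.br hbr
            hF hF' hD' hFF ih j
    have h := hind (m - 1)
    have h' := hint (m - 1) h
    rw [Nat.sub_add_cancel hm, Jk_bot, sup_bot_eq] at h'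
    rw [← FF_one, ← FF_one, ← eval_sub]
    exact PS_eval h'
  · obtain ⟨hD, hF⟩ := claim1 h1 h2 hR hM hm hx hy
    have hd : derivative (FF x y - C x - C y * X) ∈ PS I := by
      rw [derivative_sub, derivative_sub, derivative_C, sub_zero, derivative_C_mul, derivative_X,
        mul_one]
      rw [der_eq h1 h2 (hMJ hx) (hMJ hy) hm]
      rw [sub_sub_cancel_left]
      refine AddSubgroup.neg_mem _ (AddSubgroup.sum_mem _ (fun j hj => ?_))
      refine PS_smul (fun z hz => hI.smul _ (cc_mem hR ?_) z hz) ?_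
      · have := Finset.mem_range.1 hj
        omega
      · exact ad_mem hI.le hMI hF hD j
    have hp : FF x y - C x - C y * X ∈ PS I := by
      refine PS_int hR hI.smul ?_ ?_ hd
      · refine (natDegree_sub_le _ _).trans (max_le ((natDegree_sub_le _ _).trans
          (max_le (FF_deg x y) (by simp))) ?_)
        refine (natDegree_C_mul_le _ _).trans (natDegree_X_le.trans ?_)
        unfold Bd
        exact Nat.one_le_pow _ _ (by omega)
      · rw [coeff_sub, coeff_sub, FF_zero h1 (hMJ hx) hm, coeff_C_zero, mul_coeff_zero,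
          coeff_X_zero, mul_zero, sub_zero, sub_self]
        exact I.zero_mem
    have := PS_eval hp
    rw [eval_sub, eval_sub, FF_one, eval_C, eval_mul_X, eval_C, mul_one, sub_sub] at this
    exact this

end W479.RG
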