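import Mathlib
import Pool.Agent.W348.RG.Stms

/-!
Project RG (MP_67ef3c_al): power series identities for nilpotent elements.
-/

set_option autoImplicit false

open Finset Polynomial

namespace W479.RG

open Pool.Agent.W348.RG

/-- the polynomial exponential -/
noncomputable def EE (m : ℕ) : ℚ[X] := ∑ k ∈ range m, C ((k.factorial : ℚ)⁻¹) * X ^ k

/-- the polynomial logarithm -/
noncomputable def LL (m : ℕ) : ℚ[X] := ∑ j ∈ range m, C ((-1 : ℚ) ^ (j + 1) / j) * X ^ j

theorem dvd_of_der {k : ℕ} {P : ℚ[X]} (h0 : P.coeff 0 = 0) (h : X ^ k ∣ derivative P) :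
    X ^ (k + 1) ∣ P := by
  rw [X_pow_dvd_iff] at h ⊢
  intro d hd
  rcases d with _ | d
  · exact h0
  · have h1 := h d (by omega)
    rw [coeff_derivative] at h1
    have h2 : ((d : ℚ) + 1) ≠ 0 := by positivity
    exact (mul_eq_zero.1 h1).resolve_right h2

theorem der_EE (k : ℕ) : derivative (EE (k + 1)) = EE k := by
  rw [EE, EE, Finset.sum_range_succ', map_add, map_sum]
  have h0 : derivative (C (((0 : ℕ).factorial : ℚ)⁻¹) * X ^ 0) = 0 := by simp
  rw [h0, add_zero]
  refine Finset.sum_congr rfl (fun i _ => ?_)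
  rw [derivative_C_mul_X_pow, Nat.add_sub_cancel, Nat.factorial_succ]
  congr 2
  push_cast
  have : (i.factorial : ℚ) ≠ 0 := by exact_mod_cast i.factorial_ne_zero
  have h2 : ((i : ℚ) + 1) ≠ 0 := by positivity
  field_simp

theorem EE_succ (k : ℕ) : EE (k + 1) = EE k + C ((k.factorial : ℚ)⁻¹) * X ^ k := by
  rw [EE, EE, Finset.sum_range_succ]

theorem der_LL (k : ℕ) : (1 + X) * derivative (LL (k + 1)) = 1 - (-X) ^ k := by
  have h : derivative (LL (k + 1)) = ∑ i ∈ range k, (-X) ^ i := by
    rw [LL, Finset.sum_range_succ', map_add, map_sum]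
    have h0 : derivative (C ((-1 : ℚ) ^ (0 + 1) / ((0 : ℕ) : ℚ)) * X ^ 0) = 0 := by simp
    rw [h0, add_zero]
    refine Finset.sum_congr rfl (fun i _ => ?_)
    rw [derivative_C_mul_X_pow, Nat.add_sub_cancel]
    have h2 : ((i : ℚ) + 1) ≠ 0 := by positivity
    have : (-1 : ℚ) ^ (i + 1 + 1) / ((i + 1 : ℕ) : ℚ) * ((i + 1 : ℕ) : ℚ) = (-1) ^ i := by
      push_cast
      field_simp
      ring
    rw [this, neg_pow (X : ℚ[X]) i]
    congr 1
    simp
  rw [h]
  have := mul_neg_geom_sum (-X : ℚ[X]) k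
  rw [← this]
  ring

theorem X_dvd_E (k : ℕ) : X ∣ EE (k + 1) - 1 := by
  rw [X_dvd_iff, EE, coeff_sub, finsetSum_coeff, Finset.sum_range_succ']
  rw [Finset.sum_eq_zero]
  · simp
  · intro i _
    simp

theorem X_dvd_L (k : ℕ) : X ∣ LL (k + 1) := by
  rw [X_dvd_iff, LL, finsetSum_coeff, Finset.sum_range_succ']
  rw [Finset.sum_eq_zero]
  · simp
  · intro i _
    simp

theorem claim_a (k : ℕ) : X ^ (k + 1) ∣ (LL (k + 1)).comp (EE (k + 1) - 1) - X := by
  have hE := X_dvd_E k
  refine dvd_of_der ?_ ?_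
  · have h1 : X ∣ (LL (k + 1)).comp (EE (k + 1) - 1) - X := by
      refine dvd_sub ?_ dvd_rfl
      refine hE.trans ?_
      obtain ⟨q, hq⟩ := X_dvd_L k
      rw [hq, mul_comp, X_comp]
      exact dvd_mul_right _ _
    exact X_dvd_iff.1 h1
  · rw [derivative_sub, derivative_X, derivative_comp, derivative_sub, derivative_one, sub_zero,
      der_EE]
    have h1 : EE (k + 1) * (derivative (LL (k + 1))).comp (EE (k + 1) - 1) =
        1 - (-(EE (k + 1) - 1)) ^ k := by
      have h := congrArg (fun p : ℚ[X] => p.comp (EE (k + 1) - 1)) (der_LL k)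
      simp only [mul_comp, add_comp, one_comp, X_comp, sub_comp, pow_comp, neg_comp] at h
      rw [← h]
      ring
    have h2 : EE k * (derivative (LL (k + 1))).comp (EE (k + 1) - 1) - 1 =
        -(-(EE (k + 1) - 1)) ^ k - X ^ k * (C ((k.factorial : ℚ)⁻¹) *
          (derivative (LL (k + 1))).comp (EE (k + 1) - 1)) := by
      have h3 : EE k = EE (k + 1) - C ((k.factorial : ℚ)⁻¹) * X ^ k := by
        rw [EE_succ]; ring
      linear_combination (exp := 1) h1 + (derivative (LL (k + 1))).comp (EE (k + 1) - 1) * h3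
    rw [h2]
    refine dvd_sub ?_ (dvd_mul_right _ _)
    rw [dvd_neg]
    exact pow_dvd_pow_of_dvd ((dvd_neg).2 hE) k

theorem claim_b (k : ℕ) : X ^ (k + 1) ∣ (EE (k + 1)).comp (LL (k + 1)) - (1 + X) := by
  have hL := X_dvd_L k
  set W : ℚ[X] := (EE (k + 1)).comp (LL (k + 1)) - (1 + X) with hW
  have h0 : W.coeff 0 = 0 := by
    rw [← X_dvd_iff]
    obtain ⟨q, hq⟩ := X_dvd_E k
    have h1 : (EE (k + 1)).comp (LL (k + 1)) = 1 + LL (k + 1) * q.comp (LL (k + 1)) := by
      have : EE (k + 1) = 1 + X * q := by rw [← hq]; ring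
      conv_lhs => rw [this]
      simp only [mul_comp, add_comp, one_comp, X_comp]
    rw [hW, h1]
    have h2 : 1 + LL (k + 1) * q.comp (LL (k + 1)) - (1 + X) =
      LL (k + 1) * q.comp (LL (k + 1)) - X := by ring
    rw [h2]
    exact dvd_sub (hL.mul_right _) dvd_rfl
  have h1 : X ^ k ∣ (1 + X) * derivative W - W := by
    have h2 : derivative W = derivative (LL (k + 1)) * (EE k).comp (LL (k + 1)) - 1 := by
      rw [hW, derivative_sub, derivative_comp, der_EE]
      simp
    have h3 : (EE k).comp (LL (k + 1)) = W + (1 + X) -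
        C ((k.factorial : ℚ)⁻¹) * (LL (k + 1)) ^ k := by
      rw [hW, EE_succ, add_comp]
      simp only [mul_comp, C_comp, pow_comp, X_comp]
      ring
    have h4 := der_LL k
    have h5 : (1 + X) * derivative W - W =
        - ((-X) ^ k * (W + (1 + X) - C ((k.factorial : ℚ)⁻¹) * (LL (k + 1)) ^ k)) -
          C ((k.factorial : ℚ)⁻¹) * (LL (k + 1)) ^ k := by
      rw [h2, h3]
      linear_combination (exp := 1) (W + (1 + X) - C ((k.factorial : ℚ)⁻¹) * (LL (k + 1)) ^ k) * h4
    rw [h5]
    refine dvd_sub ?_ ((pow_dvd_pow_of_dvd hL k).mul_left _)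
    rw [dvd_neg]
    exact (pow_dvd_pow_of_dvd ((dvd_neg).2 dvd_rfl) k).mul_right _
  rw [X_pow_dvd_iff] at h1 ⊢
  intro d
  induction d with
  | zero => intro _; exact h0
  | succ d ih =>
    intro hd
    have h2 := h1 d (by omega)
    have h3 := ih (by omega)
    rw [coeff_sub, add_mul, one_mul, coeff_add, coeff_derivative, h3, sub_zero] at h2
    have h4 : (X * derivative W).coeff d = 0 := by
      rcases d with _ | d
      · simp
      · rw [coeff_X_mul, coeff_derivative, h3, zero_mul]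
    rw [h4, add_zero] at h2
    have h5 : ((d : ℚ) + 1) ≠ 0 := by positivity
    exact (mul_eq_zero.1 h2).resolve_right h5

theorem aeval_zero_of_dvd {A : Type} [Ring A] [Algebra ℚ A] {m : ℕ} {u : A} (hu : u ^ m = 0)
    {P : ℚ[X]} (h : X ^ m ∣ P) : aeval u P = 0 := by
  obtain ⟨q, rfl⟩ := h
  rw [map_mul, map_pow, aeval_X, hu, zero_mul]

theorem aeval_EE {A : Type} [Ring A] [Algebra ℚ A] (m : ℕ) (u : A) :
    aeval u (EE m) = ∑ k ∈ range m, ((k.factorial : ℚ)⁻¹) • u ^ k := by
  rw [EE, map_sum]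
  refine Finset.sum_congr rfl (fun k _ => ?_)
  rw [map_mul, aeval_C, map_pow, aeval_X, Algebra.smul_def]

theorem aeval_LL {A : Type} [Ring A] [Algebra ℚ A] (m : ℕ) (u : A) :
    aeval u (LL m) = ∑ j ∈ range m, ((-1 : ℚ) ^ (j + 1) / j) • u ^ j := by
  rw [LL, map_sum]
  refine Finset.sum_congr rfl (fun k _ => ?_)
  rw [map_mul, aeval_C, map_pow, aeval_X, Algebra.smul_def]

theorem expg : S_expg := by
  intro A _ _ m u hu
  rcases m with _ | k
  · have h1 : (1 : A) = 0 := by simpa using hu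
    have : Subsingleton A := subsingleton_of_zero_eq_one h1.symm
    exact ⟨Subsingleton.elim _ _, Subsingleton.elim _ _⟩
  · constructor
    · have h := aeval_zero_of_dvd hu (claim_b k)
      rw [map_sub, aeval_comp, aeval_EE, aeval_LL, map_add, map_one, aeval_X] at h
      exact sub_eq_zero.1 h
    · have h := aeval_zero_of_dvd hu (claim_a k)
      rw [map_sub, aeval_comp, aeval_LL, map_sub, aeval_EE, map_one, aeval_X] at h
      exact sub_eq_zero.1 h

/-- the derivative of a power -/
theorem der_pow {A : Type} [Ring A] [Algebra ℚ A] (D : A →ₗ[ℚ] A)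
    (hD : ∀ x y, D (x * y) = D x * y + x * D y) (f : A) (k : ℕ) :
    D (f ^ k) = ∑ r ∈ range k, ((-1 : ℚ) ^ r * (k.choose (r + 1))) •
      (f ^ (k - 1 - r) * (fun z => f * z - z * f)^[r] (D f)) := by
  have h1 : D 1 = 0 := by
    have h := hD 1 1
    rw [mul_one, mul_one, one_mul] at h
    exact left_eq_add.1 h
  induction k with
  | zero => simpa using h1
  | succ k ih =>
    rw [pow_succ, hD, ih, Finset.sum_mul]
    have e1 : ∀ r ∈ range k, ((-1 : ℚ) ^ r * (k.choose (r + 1))) •
        (f ^ (k - 1 - r) * (fun z => f * z - z * f)^[r] (D f)) * f =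
        ((-1 : ℚ) ^ r * (k.choose (r + 1))) •
          (f ^ (k - r) * (fun z => f * z - z * f)^[r] (D f)) +
        ((-1 : ℚ) ^ (r + 1) * (k.choose (r + 1))) •
          (f ^ (k - (r + 1)) * (fun z => f * z - z * f)^[r + 1] (D f)) := by
      intro r hr
      have hr' := Finset.mem_range.1 hr
      rw [Function.iterate_succ_apply']
      have e2 : k - 1 - r = k - (r + 1) := by omega
      have e3 : k - r = k - (r + 1) + 1 := by omega
      rw [e2, e3, pow_succ f (k - (r + 1)), pow_succ (-1 : ℚ) r]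
      generalize (fun z => f * z - z * f)^[r] (D f) = w
      rw [mul_neg_one, neg_mul, neg_smul, smul_mul_assoc, mul_sub, smul_sub, mul_assoc, mul_assoc]
      abel
    rw [Finset.sum_congr rfl e1, Finset.sum_add_distrib]
    rw [Finset.sum_range_succ' (fun r => ((-1 : ℚ) ^ r * (((k + 1).choose (r + 1) : ℕ) : ℚ)) •
      (f ^ (k + 1 - 1 - r) * (fun z => f * z - z * f)^[r] (D f)))]
    have e4 : ∑ r ∈ range k, ((-1 : ℚ) ^ r * (k.choose (r + 1))) •
        (f ^ (k - r) * (fun z => f * z - z * f)^[r] (D f)) + f ^ k * D f =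
        ∑ r ∈ range k, ((-1 : ℚ) ^ (r + 1) * (k.choose (r + 1 + 1))) •
          (f ^ (k - (r + 1)) * (fun z => f * z - z * f)^[r + 1] (D f)) +
        ((k : ℚ) + 1) • (f ^ k * D f) := by
      have e5 := Finset.sum_range_succ' (fun r => ((-1 : ℚ) ^ r * (k.choose (r + 1))) •
        (f ^ (k - r) * (fun z => f * z - z * f)^[r] (D f))) k
      rw [Finset.sum_range_succ] at e5
      rw [Nat.choose_succ_self, Nat.cast_zero, mul_zero, zero_smul, add_zero] at e5
      rw [e5]
      simp only [pow_zero, zero_add, Nat.choose_one_right, one_mul, Nat.sub_zero,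
        Function.iterate_zero, id_eq]
      rw [add_smul, one_smul]
      abel
    rw [add_right_comm, e4, add_right_comm, ← Finset.sum_add_distrib]
    congr 1
    · refine Finset.sum_congr rfl (fun r _ => ?_)
      rw [← add_smul, Nat.add_sub_cancel, Nat.choose_succ_succ k (r + 1)]
      congr 1
      push_cast
      ring
    · simp

theorem ad_nil {A : Type} [Ring A] [Algebra ℚ A] {f : A} {N r : ℕ} (hf : f ^ N = 0)
    (hr : 2 * N ≤ r) (a : A) : (fun z => f * z - z * f)^[r] a = 0 := by
  have hc : Commute (LinearMap.mulLeft ℚ f : Module.End ℚ A)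
      (-(LinearMap.mulRight ℚ f) : Module.End ℚ A) :=
    (LinearMap.commute_mulLeft_right (R := ℚ) f f).neg_right
  have h1 : (LinearMap.mulLeft ℚ f) ^ N = 0 := by
    rw [LinearMap.pow_mulLeft, hf, LinearMap.mulLeft_zero_eq_zero]
  have h2 : (-(LinearMap.mulRight ℚ f) : Module.End ℚ A) ^ N = 0 := by
    rw [neg_pow (LinearMap.mulRight ℚ f : Module.End ℚ A), LinearMap.pow_mulRight, hf,
      LinearMap.mulRight_zero_eq_zero, mul_zero]
  have h3 := hc.add_pow_eq_zero_of_add_le_succ_of_pow_eq_zero h1 h2 (k := r) (by omega)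
  have h4 := congrArg (fun T : Module.End ℚ A => T a) h3
  simp only [Module.End.pow_apply, LinearMap.zero_apply] at h4
  rw [← h4]
  congr 1
  funext z
  simp [sub_eq_add_neg]

theorem dexp : S_dexp := by
  intro A _ _ D hD f N hf
  have hz : ∀ r, 2 * N ≤ r → (fun z => f * z - z * f)^[r] (D f) = 0 :=
    fun r hr => ad_nil hf hr _
  have hfl : ∀ l, N ≤ l → f ^ l = 0 := fun l hl => pow_eq_zero_of_le hl hf
  generalize hzz : (fun r => (fun z => f * z - z * f)^[r] (D f)) = w
  have hzr : ∀ r, (fun z => f * z - z * f)^[r] (D f) = w r := fun r => congrFun hzz r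
  simp only [hzr] at hz ⊢
  have e1 : D (∑ k ∈ range N, ((k.factorial : ℚ)⁻¹) • f ^ k) =
      ∑ k ∈ range (3 * N), ((k.factorial : ℚ)⁻¹) • D (f ^ k) := by
    rw [map_sum]
    rw [← Finset.sum_subset (Finset.range_subset_range.2 (by omega : N ≤ 3 * N))
      (fun k _ hk => by rw [hfl k (by simpa using hk), map_zero, smul_zero])]
    refine Finset.sum_congr rfl (fun k _ => by rw [map_smul])
  have e2 : ∀ k ∈ range (3 * N), ((k.factorial : ℚ)⁻¹) • D (f ^ k) =
      ∑ r ∈ range k, (((k - 1 - r).factorial : ℚ)⁻¹ * ((-1 : ℚ) ^ r / ((r + 1).factorial))) •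
        (f ^ (k - 1 - r) * w r) := by
    intro k _
    rw [der_pow D hD, Finset.smul_sum]
    refine Finset.sum_congr rfl (fun r hr => ?_)
    have hr' := Finset.mem_range.1 hr
    rw [hzr, smul_smul]
    congr 1
    have h1 : (k.choose (r + 1) : ℚ) = k.factorial / ((r + 1).factorial * (k - (r + 1)).factorial) :=
      Nat.cast_choose ℚ (by omega)
    rw [h1, show k - 1 - r = k - (r + 1) by omega]
    have h2 : (k.factorial : ℚ) ≠ 0 := by exact_mod_cast k.factorial_ne_zero
    have h3 : ((r + 1).factorial : ℚ) ≠ 0 := by exact_mod_cast (r + 1).factorial_ne_zero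
    have h4 : ((k - (r + 1)).factorial : ℚ) ≠ 0 := by
      exact_mod_cast (k - (r + 1)).factorial_ne_zero
    field_simp
  rw [e1, Finset.sum_congr rfl e2]
  rw [Finset.sum_comm' (s' := fun r => Finset.Ico (r + 1) (3 * N)) (t' := range (3 * N))
    (by
      intro k r
      simp only [Finset.mem_range, Finset.mem_Ico]
      omega)]
  rw [Finset.mul_sum]
  rw [← Finset.sum_subset (Finset.range_subset_range.2 (by omega : 2 * N ≤ 3 * N))
    (fun r _ hr => Finset.sum_eq_zero (fun k _ => by
      rw [hz r (by simpa using hr), mul_zero, smul_zero]))]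
  refine Finset.sum_congr rfl (fun r hr => ?_)
  have hr' := Finset.mem_range.1 hr
  rw [Finset.sum_Ico_eq_sum_range, Finset.sum_mul]
  rw [← Finset.sum_subset (Finset.range_subset_range.2 (by omega : N ≤ 3 * N - (r + 1)))
    (fun l _ hl => by
      rw [show r + 1 + l - 1 - r = l by omega, hfl l (by simpa using hl), zero_mul, smul_zero])]
  refine Finset.sum_congr rfl (fun l _ => ?_)
  rw [show r + 1 + l - 1 - r = l by omega, smul_mul_smul_comm]

end W479.RG
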