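import Mathlib
import Pool.Agent.W479.RG.Bch

/-!
Project RG (MP_67ef3c_al): the logarithms of an `R`-powered group form a Lie ring.
-/

set_option autoImplicit false

open Finset

namespace W479.RG

open Pool.Agent.W348.RG

variable {m : ℕ}

theorem ex_zero : ex (0 : Mt m) = 1 := by
  rcases m with _ | k
  · ext i
    exact i.elim0
  · rw [ex, Finset.sum_range_succ', Finset.sum_eq_zero]
    · simp
    · intro i _
      rw [zero_pow (by omega), smul_zero]

theorem lg_one : lg (1 : Mt m) = 0 := by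
  rw [lg]
  refine Finset.sum_eq_zero (fun k _ => ?_)
  rcases k with _ | k
  · simp
  · rw [sub_self, zero_pow (by omega), smul_zero]

theorem one_mem_Jk : (1 : Mt m) ∈ Jk m 0 := by
  intro i j hij
  refine Matrix.one_apply_ne (fun h => ?_)
  rw [h] at hij
  omega

theorem Jk_pow' {x : Mt m} {i : ℕ} (hx : x ∈ Jk m i) (k : ℕ) : x ^ k ∈ Jk m (i * k) := by
  induction k with
  | zero => rw [pow_zero, mul_zero]; exact one_mem_Jk
  | succ k ih =>
    rw [pow_succ, Nat.mul_succ]
    exact Jk_mul ih hx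

theorem ex_sub_one' {x : Mt m} {i : ℕ} (hx : x ∈ Jk m i) : ex x - 1 ∈ Jk m i := by
  rcases Nat.eq_zero_or_pos m with hm | hm
  · subst hm
    intro i
    exact i.elim0
  · obtain ⟨k, rfl⟩ : ∃ k, m = k + 1 := ⟨m - 1, by omega⟩
    have : ex x - 1 = ∑ i ∈ range k, ((((i + 1).factorial : ℚ)⁻¹) • x ^ (i + 1)) := by
      rw [ex, Finset.sum_range_succ']
      simp
    rw [this]
    exact AddSubgroup.sum_mem _ (fun l _ => Jk_smul _ (Jk_anti (by nlinarith) (Jk_pow' hx (l + 1))))

theorem lg_mem' {g : Mt m} {i : ℕ} (hg : g - 1 ∈ Jk m i) : lg g ∈ Jk m i := by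
  rw [lg]
  refine AddSubgroup.sum_mem _ (fun k _ => ?_)
  rcases k with _ | k
  · simp
  · exact Jk_smul _ (Jk_anti (by nlinarith) (Jk_pow' hg (k + 1)))

theorem ex_mem_Jk_zero {x : Mt m} {i : ℕ} (hx : x ∈ Jk m i) : ex x ∈ Jk m 0 := by
  have h := AddSubgroup.add_mem _ (Jk_anti (Nat.zero_le i) (ex_sub_one' hx)) (one_mem_Jk (m := m))
  rwa [sub_add_cancel] at h

/-- products of matrices congruent to `1` -/
theorem mul_sub_one {g h : Mt m} (hg : g - 1 ∈ Jk m 1) (hh : h - 1 ∈ Jk m 1) :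
    g * h - 1 ∈ Jk m 1 := by
  have e : g * h - 1 = (g - 1) * (h - 1) + (g - 1) + (h - 1) := by
    rw [sub_mul, mul_sub, mul_one, one_mul]
    abel
  rw [e]
  exact AddSubgroup.add_mem _ (AddSubgroup.add_mem _ (Jk_anti (by omega) (Jk_mul hg hh)) hg) hh

theorem ex_mul_neg (hexp : S_exp) {x : Mt m} (hx : x ∈ Jk m 1) : ex x * ex (-x) = 1 := by
  have h := (hexp m).2.2 x (mem_Jk_one.1 hx) 1 (-1)
  rwa [one_smul, neg_one_smul, add_neg_cancel, zero_smul, ex_zero] at h

theorem ex_neg_mul (hexp : S_exp) {x : Mt m} (hx : x ∈ Jk m 1) : ex (-x) * ex x = 1 := by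
  have h := (hexp m).2.2 x (mem_Jk_one.1 hx) (-1) 1
  rwa [one_smul, neg_one_smul, neg_add_cancel, zero_smul, ex_zero] at h

/-- the logarithm of a commutator -/
theorem comm_mem (hexp : S_exp) {x y : Mt m} {i : ℕ} (hi : 1 ≤ i) (hx : x ∈ Jk m i)
    (hy : y ∈ Jk m i) : ex x * ex y * ex (-x) * ex (-y) - 1 ∈ Jk m (i + 1) := by
  have hx1 := Jk_anti hi hx
  have hy1 := Jk_anti hi hy
  have e : ex x * ex y * ex (-x) * ex (-y) - 1 =
      ((ex x - 1) * (ex y - 1) - (ex y - 1) * (ex x - 1)) * (ex (-x) * ex (-y)) := by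
    have e1 : (ex x - 1) * (ex y - 1) - (ex y - 1) * (ex x - 1) = ex x * ex y - ex y * ex x := by
      simp only [sub_mul, mul_sub, mul_one, one_mul]
      abel
    have e2 : ex y * ex x * (ex (-x) * ex (-y)) = 1 := by
      calc ex y * ex x * (ex (-x) * ex (-y)) = ex y * (ex x * ex (-x)) * ex (-y) := by
            simp only [mul_assoc]
        _ = 1 := by rw [ex_mul_neg hexp hx1, mul_one, ex_mul_neg hexp hy1]
    rw [e1, sub_mul, e2]
    simp only [mul_assoc]
  rw [e]
  have h0 : ex (-x) * ex (-y) ∈ Jk m 0 :=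
    Jk_mul (ex_mem_Jk_zero (AddSubgroup.neg_mem _ hx)) (ex_mem_Jk_zero (AddSubgroup.neg_mem _ hy))
  have h1 : (ex x - 1) * (ex y - 1) - (ex y - 1) * (ex x - 1) ∈ Jk m (i + i) :=
    AddSubgroup.sub_mem _ (Jk_mul (ex_sub_one' hx) (ex_sub_one' hy))
      (Jk_mul (ex_sub_one' hy) (ex_sub_one' hx))
  exact Jk_anti (by omega) (Jk_mul h1 h0)

/-- binomial formula for the exponential of multiples of a nilpotent matrix -/
theorem ex_smul_mul {x : Mt m} (hx : x ∈ Jk m 1) (s t : ℚ) :
    ex (s • x) * ex (t • x) = ex ((s + t) • x) := by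
  have hn : x ^ m = 0 := Jk_nil hx
  have hc : Commute (s • x) (t • x) := (Commute.refl x).smul_left s |>.smul_right t
  have e1 : ∀ (q : ℚ), ex (q • x) = IsNilpotent.exp (q • x) := by
    intro q
    have h : (q • x) ^ m = 0 := by rw [smul_pow, hn, smul_zero]
    rw [IsNilpotent.exp_eq_sum h, ex]
  rw [e1, e1, e1, add_smul]
  rw [IsNilpotent.exp_add_of_commute hc ⟨m, by rw [smul_pow, hn, smul_zero]⟩
    ⟨m, by rw [smul_pow, hn, smul_zero]⟩]

/-- basic properties of `ex` and `lg` -/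
theorem exp' (h : S_expg) : S_exp := by
  intro m
  refine ⟨fun x hx => ?_, fun g hg => ?_, fun x hx s t => ex_smul_mul (mem_Jk_one.2 hx) s t⟩
  · have hx' := mem_Jk_one.2 hx
    exact ⟨(h (Mt m) m x (Jk_nil hx')).2, mem_Jk_one.1 (ex_sub_one hx')⟩
  · have hg' := mem_Jk_one.2 hg
    refine ⟨?_, mem_Jk_one.1 (lg_mem' hg')⟩
    have := (h (Mt m) m (g - 1) (Jk_nil hg')).1
    rw [add_sub_cancel] at this
    exact this

theorem lz (h1 : S_exp) (h2 : S_bch) (h3 : S_van) : S_lz := by
  intro m R hR H hHJ hHp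
  -- the set of logarithms
  let A0 : Set (Mt m) := {x | x ∈ Jk m 1 ∧ ex x ∈ H}
  have hA0s : ∀ r ∈ R, ∀ x ∈ A0, r • x ∈ A0 := by
    rintro r hr x ⟨hx, hxH⟩
    refine ⟨Jk_smul r hx, ?_⟩
    have h := hHp _ hxH r hr
    rwa [((h1 m).1 x (mem_Jk_one.1 hx)).1] at h
  have hA00 : (0 : Mt m) ∈ A0 := ⟨AddSubgroup.zero_mem _, by rw [ex_zero]; exact H.one_mem⟩
  have hA0n : ∀ x ∈ A0, -x ∈ A0 := by
    intro x hx
    have h := hA0s (-1) (R.neg_mem R.one_mem) x hx
    rwa [neg_one_smul] at h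
  have hlg : ∀ c ∈ H, lg c ∈ A0 := by
    intro c hc
    have h := (h1 m).2.1 c (hHJ c hc)
    exact ⟨mem_Jk_one.2 h.2, by rw [h.1]; exact hc⟩
  have hcomm : ∀ x ∈ A0, ∀ y ∈ A0, ∀ s t : ℕ,
      ex ((s : ℚ) • x) * ex ((t : ℚ) • y) * ex (-(s : ℚ) • x) * ex (-(t : ℚ) • y) ∈ H := by
    intro x hx y hy s t
    have hs : (s : ℚ) ∈ R := natCast_mem R s
    have ht : (t : ℚ) ∈ R := natCast_mem R t
    exact H.mul_mem (H.mul_mem (H.mul_mem (hA0s _ hs x hx).2 (hA0s _ ht y hy).2)
      (hA0s _ (R.neg_mem hs) x hx).2) (hA0s _ (R.neg_mem ht) y hy).2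
  -- downward induction
  have hadd : ∀ k i : ℕ, 1 ≤ i → i + k = m + 1 → ∀ x ∈ A0, ∀ y ∈ A0, x ∈ Jk m i → y ∈ Jk m i →
      x + y ∈ A0 := by
    intro k
    induction k with
    | zero =>
      intro i hi hk x _ y _ hxi hyi
      have hx0 := Jk_top (Jk_anti (by omega) hxi)
      have hy0 := Jk_top (Jk_anti (by omega) hyi)
      rw [hx0, hy0, add_zero]
      exact hA00
    | succ k ih =>
      intro i hi hk x hx y hy hxi hyi
      have ih' := ih (i + 1) (by omega) (by omega)
      let A' : AddSubgroup (Mt m) :=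
        { carrier := {z | z ∈ A0 ∧ z ∈ Jk m (i + 1)}
          add_mem' := by
            rintro a b ⟨ha, ha'⟩ ⟨hb, hb'⟩
            exact ⟨ih' a ha b hb ha' hb', AddSubgroup.add_mem _ ha' hb'⟩
          zero_mem' := ⟨hA00, AddSubgroup.zero_mem _⟩
          neg_mem' := by
            rintro a ⟨ha, ha'⟩
            exact ⟨hA0n a ha, AddSubgroup.neg_mem _ ha'⟩ }
      have hA's : ∀ r ∈ R, ∀ z ∈ A', r • z ∈ A' := by
        rintro r hr z ⟨hz, hz'⟩
        exact ⟨hA0s r hr z hz, Jk_smul r hz'⟩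
      have hbr : ∀ p ∈ A0, p ∈ Jk m i → ∀ q ∈ A0, q ∈ Jk m i → p * q - q * p ∈ A' := by
        intro p hp hpi q hq hqi
        refine h3 m R hR A' hA's p (mem_Jk_one.1 hp.1) q (mem_Jk_one.1 hq.1) (fun s t _ _ => ?_)
        refine ⟨hlg _ (hcomm p hp q hq s t), lg_mem' ?_⟩
        have h := comm_mem h1 hi (Jk_smul (s : ℚ) hpi) (Jk_smul (t : ℚ) hqi)
        rwa [← neg_smul, ← neg_smul] at h
      let S : Set (Mt m) := {z | z ∈ A0 ∧ z ∈ Jk m i}
      let M : AddSubgroup (Mt m) := AddSubgroup.closure S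
      have hSM : ∀ z ∈ A0, z ∈ Jk m i → z ∈ M := fun z hz hz' =>
        AddSubgroup.subset_closure ⟨hz, hz'⟩
      have hMbr : ∀ p ∈ M, ∀ q ∈ M, p * q - q * p ∈ A' := by
        intro p hp q hq
        refine AddSubgroup.closure_induction₂ (p := fun p q _ _ => p * q - q * p ∈ A')
          (fun a b ha hb => hbr a ha.1 ha.2 b hb.1 hb.2) ?_ ?_ ?_ ?_ ?_ ?_ hp hq
        · intro a _
          rw [zero_mul, mul_zero, sub_zero]
          exact A'.zero_mem
        · intro a _
          rw [zero_mul, mul_zero, sub_zero]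
          exact A'.zero_mem
        · intro a b c _ _ _ h h'
          have e : (a + b) * c - c * (a + b) = (a * c - c * a) + (b * c - c * b) := by
            rw [add_mul, mul_add]; abel
          rw [e]
          exact A'.add_mem h h'
        · intro a b c _ _ _ h h'
          have e : c * (a + b) - (a + b) * c = (c * a - a * c) + (c * b - b * c) := by
            rw [add_mul, mul_add]; abel
          rw [e]
          exact A'.add_mem h h'
        · intro a b _ _ h
          have e : -a * b - b * -a = -(a * b - b * a) := by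
            rw [neg_mul, mul_neg]; abel
          rw [e]
          exact A'.neg_mem h
        · intro a b _ _ h
          have e : a * -b - -b * a = -(a * b - b * a) := by
            rw [neg_mul, mul_neg]; abel
          rw [e]
          exact A'.neg_mem h
      have hA'M : A' ≤ M := by
        rintro z ⟨hz, hz'⟩
        exact hSM z hz (Jk_anti (Nat.le_succ i) hz')
      have hMJ : M ≤ Jk m 1 := by
        rw [AddSubgroup.closure_le]
        rintro z ⟨hz, _⟩
        exact hz.1
      have hM : IsLie R M := by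
        refine ⟨fun r hr z hz => ?_, fun z hz => mem_Jk_one.1 (hMJ hz), fun p hp q hq =>
          hA'M (hMbr p hp q hq)⟩
        refine AddSubgroup.closure_induction (p := fun z _ => r • z ∈ M) ?_ ?_ ?_ ?_ hz
        · rintro a ⟨ha, ha'⟩
          exact hSM _ (hA0s r hr a ha) (Jk_smul r ha')
        · rw [smul_zero]
          exact M.zero_mem
        · intro a b _ _ h h'
          rw [smul_add]
          exact M.add_mem h h'
        · intro a _ h
          rw [smul_neg]
          exact M.neg_mem h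
      have hI : IsIdl R M A' := ⟨hA's, hA'M, fun p hp q hq => hMbr p hp q (hA'M hq)⟩
      obtain ⟨-, hb⟩ := h2 m R hR M hM
      obtain ⟨hb2, hb3⟩ := hb A' hI
      have hxM := hSM x hx hxi
      have hyM := hSM y hy hyi
      have hw := hb3 hMbr x hxM y hyM
      set w := lg (ex x * ex y) with hwdef
      have hxy1 : ex x * ex y - 1 ∈ Jk m 1 := mul_sub_one (ex_sub_one hx.1) (ex_sub_one hy.1)
      have hexw : ex w = ex x * ex y := ((h1 m).2.1 _ (mem_Jk_one.1 hxy1)).1
      have hwM : w ∈ M := by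
        have h := M.add_mem (hA'M hw) (M.add_mem hxM hyM)
        rwa [sub_add_cancel] at h
      have hxyM : x + y ∈ M := M.add_mem hxM hyM
      have hneg : x + y - w ∈ A' := by
        have h := A'.neg_mem hw
        rwa [neg_sub] at h
      have h0 : -w - -w ∈ A' := by
        rw [sub_self]
        exact A'.zero_mem
      have hu := hb2 (-w) (M.neg_mem hwM) (-w) (M.neg_mem hwM) (x + y) hxyM w hwM h0 hneg
      rw [ex_neg_mul h1 (hMJ hwM), lg_one, sub_zero] at hu
      have hprod1 : ex (-w) * ex (x + y) - 1 ∈ Jk m 1 :=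
        mul_sub_one (ex_sub_one (AddSubgroup.neg_mem _ (hMJ hwM))) (ex_sub_one (hMJ hxyM))
      have hexu : ex (lg (ex (-w) * ex (x + y))) = ex (-w) * ex (x + y) :=
        ((h1 m).2.1 _ (mem_Jk_one.1 hprod1)).1
      have hfin : ex (x + y) ∈ H := by
        have e : ex (x + y) = ex w * ex (lg (ex (-w) * ex (x + y))) := by
          rw [hexu, ← mul_assoc, ex_mul_neg h1 (hMJ hwM), one_mul]
        rw [e]
        exact H.mul_mem (by rw [hexw]; exact H.mul_mem hx.2 hy.2) hu.1.2
      exact ⟨AddSubgroup.add_mem _ hx.1 hy.1, hfin⟩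
  let A : AddSubgroup (Mt m) :=
    { carrier := A0
      add_mem' := by
        intro a b ha hb
        exact hadd m 1 le_rfl (by omega) a ha b hb ha.1 hb.1
      zero_mem' := hA00
      neg_mem' := by
        intro a ha
        exact hA0n a ha }
  refine ⟨A, fun x => ?_, ⟨hA0s, fun x hx => mem_Jk_one.1 hx.1, fun x hx y hy => ?_⟩⟩
  · constructor
    · intro hx
      exact ⟨mem_Jk_one.1 hx.1, hx.2⟩
    · intro hx
      exact ⟨mem_Jk_one.2 hx.1, hx.2⟩
  · exact h3 m R hR A hA0s x (mem_Jk_one.1 hx.1) y (mem_Jk_one.1 hy.1)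
      (fun s t _ _ => hlg _ (hcomm x hx y hy s t))

end W479.RG

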