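import Mathlib
import Pool.Agent.W479.RG.Lz

/-!
Project RG (MP_67ef3c_al): isolators of groups of unitriangular matrices.
-/

set_option autoImplicit false

open Finset

namespace W479.RG

open Pool.Agent.W348.RG

variable {m : ℕ}

theorem ex_pow {x : Mt m} (hx : x ∈ Jk m 1) (n : ℕ) : ex x ^ n = ex ((n : ℚ) • x) := by
  induction n with
  | zero => rw [pow_zero, Nat.cast_zero, zero_smul, ex_zero]
  | succ n ih =>
    have h := ex_smul_mul hx (n : ℚ) 1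
    rw [one_smul] at h
    rw [pow_succ, ih, h, Nat.cast_succ]

/-- a unit from a matrix congruent to `1` -/
noncomputable def mkU (h1 : S_exp) (u : Mt m) (hu : u - 1 ∈ J m) : (Mt m)ˣ where
  val := u
  inv := ex (-lg u)
  val_inv := by
    have h := (h1 m).2.1 u hu
    have h2 := ex_mul_neg h1 (mem_Jk_one.2 h.2)
    rwa [h.1] at h2
  inv_val := by
    have h := (h1 m).2.1 u hu
    have h2 := ex_neg_mul h1 (mem_Jk_one.2 h.2)
    rwa [h.1] at h2

/-- the group of unitriangular matrices -/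
def UT (h1 : S_exp) (m : ℕ) : Subgroup (Mt m)ˣ where
  carrier := {u | (u : Mt m) - 1 ∈ J m}
  mul_mem' := by
    intro a b ha hb
    have ha' : (a : Mt m) - 1 ∈ J m := ha
    have hb' : (b : Mt m) - 1 ∈ J m := hb
    show ((a * b : (Mt m)ˣ) : Mt m) - 1 ∈ J m
    rw [Units.val_mul]
    exact mem_Jk_one.1 (mul_sub_one (mem_Jk_one.2 ha') (mem_Jk_one.2 hb'))
  one_mem' := by
    show ((1 : (Mt m)ˣ) : Mt m) - 1 ∈ J m
    rw [Units.val_one, sub_self]
    exact (J m).zero_mem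
  inv_mem' := by
    intro a ha
    have ha' : (a : Mt m) - 1 ∈ J m := ha
    show ((a⁻¹ : (Mt m)ˣ) : Mt m) - 1 ∈ J m
    have e : a = mkU h1 (a : Mt m) ha' := Units.ext rfl
    rw [e]
    have h := (h1 m).2.1 (a : Mt m) ha'
    exact mem_Jk_one.1 (ex_sub_one (AddSubgroup.neg_mem _ (mem_Jk_one.2 h.2)))

theorem mem_UT (h1 : S_exp) {u : (Mt m)ˣ} : u ∈ UT h1 m ↔ (u : Mt m) - 1 ∈ J m := Iff.rfl

theorem UT_nil (h1 : S_exp) (h3 : S_utn) (m : ℕ) : Group.IsNilpotent (UT h1 m) := by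
  refine h3 m (UT h1 m) ((Units.coeHom (Mt m)).comp (UT h1 m).subtype) ?_ ?_
  · intro a b h
    exact Subtype.ext (Units.ext h)
  · intro k i j hij
    have h : ((k : (Mt m)ˣ) : Mt m) - 1 ∈ J m := k.2
    have h2 := h i j hij
    rw [Matrix.sub_apply, sub_eq_zero, Matrix.one_apply] at h2
    exact h2

theorem uni_sub_one {G : Type} [Group G] (r : UniRep G) (g : G) : r.ρ g - 1 ∈ J r.m := by
  intro i j hij
  rw [Matrix.sub_apply, r.uni g i j hij, Matrix.one_apply, sub_self]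

theorem ex_zpow {G : Type} [Group G] (r : UniRep G) {x : Mt r.m} (hx : x ∈ Jk r.m 1) {g : G}
    (hg : ex x = r.ρ g) (z : ℤ) : ex ((z : ℚ) • x) = r.ρ (g ^ z) := by
  have hnat : ∀ n : ℕ, ex ((n : ℚ) • x) = r.ρ (g ^ n) := by
    intro n
    rw [← ex_pow hx, hg, map_pow]
  obtain ⟨n, rfl | rfl⟩ := z.eq_nat_or_neg
  · rw [Int.cast_natCast, zpow_natCast]
    exact hnat n
  · have h1 : r.ρ (g ^ n) * r.ρ (g ^ (-(n : ℤ))) = 1 := by
      rw [← map_mul, zpow_neg, zpow_natCast, mul_inv_cancel, map_one]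
    have h2 : ex (((-(n : ℤ) : ℤ) : ℚ) • x) * r.ρ (g ^ n) = 1 := by
      rw [← hnat n, ex_smul_mul hx]
      have : (((-(n : ℤ) : ℤ) : ℚ) + (n : ℚ)) = 0 := by push_cast; ring
      rw [this, zero_smul, ex_zero]
    calc ex (((-(n : ℤ) : ℤ) : ℚ) • x) = ex (((-(n : ℤ) : ℤ) : ℚ) • x) *
          (r.ρ (g ^ n) * r.ρ (g ^ (-(n : ℤ)))) := by rw [h1, mul_one]
      _ = r.ρ (g ^ (-(n : ℤ))) := by rw [← mul_assoc, h2, one_mul]

theorem hull (h1 : S_exp) (h2 : S_iso) (h3 : S_utn) (h4 : S_lz) : S_hull := by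
  intro G _ r P E R hE0 hE1 hE2 hR
  have hnil : Group.IsNilpotent (UT h1 r.m) := UT_nil h1 h3 r.m
  let ρ' : G →* UT h1 r.m := (r.ρ.toHomUnits).codRestrict (UT h1 r.m) (fun g => uni_sub_one r g)
  have hρ' : ∀ g, (((ρ' g : UT h1 r.m) : (Mt r.m)ˣ) : Mt r.m) = r.ρ g := fun g => rfl
  let H : Submonoid (Mt r.m) :=
    { carrier := {u | u - 1 ∈ J r.m ∧ ∃ n ∈ E, ∃ g ∈ P, u ^ n = r.ρ g}
      one_mem' := by
        refine ⟨?_, 1, E.one_mem, 1, P.one_mem, ?_⟩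
        · rw [sub_self]
          exact (J r.m).zero_mem
        · rw [one_pow, map_one]
      mul_mem' := by
        rintro u v ⟨hu, n, hn, g, hg, hug⟩ ⟨hv, k, hk, g', hg', hvg⟩
        let u' : UT h1 r.m := ⟨mkU h1 u hu, hu⟩
        let v' : UT h1 r.m := ⟨mkU h1 v hv, hv⟩
        have hu' : ∃ n ∈ E, u' ^ n ∈ P.map ρ' := by
          refine ⟨n, hn, g, hg, ?_⟩
          apply Subtype.ext
          apply Units.ext
          rw [hρ', ← hug]
          rfl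
        have hv' : ∃ n ∈ E, v' ^ n ∈ P.map ρ' := by
          refine ⟨k, hk, g', hg', ?_⟩
          apply Subtype.ext
          apply Units.ext
          rw [hρ', ← hvg]
          rfl
        obtain ⟨l, hl, g'', hg'', h⟩ := h2 (UT h1 r.m) (P.map ρ') E hE0 u' v' hu' hv'
        refine ⟨mem_Jk_one.1 (mul_sub_one (mem_Jk_one.2 hu) (mem_Jk_one.2 hv)), l, hl, g'', hg'',
          ?_⟩
        have h5 := congrArg (fun w : UT h1 r.m => ((w : (Mt r.m)ˣ) : Mt r.m)) h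
        exact h5.symm }
  have hHmem : ∀ u, u ∈ H ↔ u - 1 ∈ J r.m ∧ ∃ n ∈ E, ∃ g ∈ P, u ^ n = r.ρ g := fun u => Iff.rfl
  obtain ⟨A, hA, hAL⟩ := h4 r.m R hR H (fun u hu => hu.1) (by
    rintro u ⟨hu, n, hn, g, hg, hug⟩ q hq
    obtain ⟨n', hn', z, hz⟩ := hE2 q hq
    obtain ⟨hul, hul2⟩ := (h1 r.m).2.1 u hu
    have hx : lg u ∈ Jk r.m 1 := mem_Jk_one.2 hul2
    rw [hHmem]
    refine ⟨mem_Jk_one.1 (ex_sub_one (Jk_smul q hx)), n * n', E.mul_mem hn hn', g ^ z,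
      P.zpow_mem hg z, ?_⟩
    rw [ex_pow (Jk_smul q hx), smul_smul]
    have e1 : (((n * n' : ℕ) : ℚ) * q) = (z : ℚ) * (n : ℚ) := by
      rw [← hz]
      push_cast
      ring
    rw [e1, ← smul_smul]
    refine ex_zpow r (Jk_smul _ hx) ?_ z
    rw [← ex_pow hx, hul, hug])
  refine ⟨A, fun x => ?_, hAL⟩
  rw [hA, hHmem]
  constructor
  · rintro ⟨hx, _, n, hn, g, hg, h⟩
    exact ⟨hx, n, hn, g, hg, by rw [← ex_pow (mem_Jk_one.2 hx)]; exact h⟩
  · rintro ⟨hx, n, hn, g, hg, h⟩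
    exact ⟨hx, mem_Jk_one.1 (ex_sub_one (mem_Jk_one.2 hx)), n, hn, g, hg, by
      rw [ex_pow (mem_Jk_one.2 hx)]; exact h⟩

end W479.RG
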