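import Mathlib
import Pool.Agent.W479.RG.Bch

/-!
Project RG (MP_67ef3c_al): the Lie bracket from group commutators.
-/

set_option autoImplicit false

open Finset Polynomial

namespace W479.RG

open Pool.Agent.W348.RG

variable {m : ℕ}

/-- coefficients of a product of polynomials over a subring -/
theorem coeff_prod_mem {R : Subring ℚ} {ι : Type} (s : Finset ι) (f : ι → ℚ[X])
    (h : ∀ i ∈ s, ∀ n, (f i).coeff n ∈ R) : ∀ n, (∏ i ∈ s, f i).coeff n ∈ R := by
  have h1 : ∏ i ∈ s, f i ∈ (mapRingHom R.subtype).range :=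
    Subring.prod_mem _ (fun i hi => (mem_map_range R.subtype).2 (fun n => by
      rw [Subring.range_subtype]
      exact h i hi n))
  intro n
  have h2 := (mem_map_range R.subtype).1 h1 n
  rwa [Subring.range_subtype] at h2

theorem inv_sub {R : Subring ℚ} (hR : Inv m R) {i j B : ℕ} (hB : B ≤ Bd m) (hi : i ≤ B)
    (hj : j ≤ B) (hij : i ≠ j) : ((i : ℚ) - j)⁻¹ ∈ R := by
  rcases lt_or_gt_of_ne hij with h | h
  · have e : ((i : ℚ) - j)⁻¹ = -(((j - i : ℕ) : ℚ)⁻¹) := by
      rw [Nat.cast_sub h.le, ← inv_neg, neg_sub]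
    rw [e]
    exact R.neg_mem (hR _ (by omega) (by omega))
  · have e : ((i : ℚ) - j)⁻¹ = (((i - j : ℕ) : ℚ)⁻¹) := by
      rw [Nat.cast_sub h.le]
    rw [e]
    exact hR _ (by omega) (by omega)

/-- the weights of the interpolation -/
theorem weights {R : Subring ℚ} (hR : Inv m R) {B : ℕ} (hB : B ≤ Bd m) :
    ∃ w : ℕ → ℕ → ℚ, (∀ b, ∀ i ≤ B, w b i ∈ R) ∧ ∀ a ≤ B, ∀ b,
      ∑ i ∈ range (B + 1), w b i * (i : ℚ) ^ a = if a = b then 1 else 0 := by
  have hinj : Set.InjOn (fun i : ℕ => (i : ℚ)) (range (B + 1) : Finset ℕ) :=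
    fun a _ b _ h => Nat.cast_injective h
  refine ⟨fun b i => (Lagrange.basis (range (B + 1)) (fun i : ℕ => (i : ℚ)) i).coeff b,
    fun b i hi => ?_, fun a ha b => ?_⟩
  · refine coeff_prod_mem _ _ (fun j hj n => ?_) b
    rw [Finset.mem_erase, Finset.mem_range] at hj
    rw [Lagrange.basisDivisor, coeff_C_mul, coeff_sub]
    refine R.mul_mem (inv_sub hR hB hi (by omega) (Ne.symm hj.1)) (R.sub_mem ?_ ?_)
    · rw [coeff_X]
      split
      · exact R.one_mem
      · exact R.zero_mem
    · rw [coeff_C]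
      split
      · exact natCast_mem R j
      · exact R.zero_mem
  · have h := Lagrange.eq_interpolate (s := range (B + 1)) (v := fun i : ℕ => (i : ℚ))
      (f := (X : ℚ[X]) ^ a) hinj (by
        rw [degree_X_pow, Finset.card_range]
        exact_mod_cast Nat.lt_succ_of_le ha)
    rw [Lagrange.interpolate_apply] at h
    have h2 := congrArg (fun p : ℚ[X] => p.coeff b) h
    simp only [finsetSum_coeff, coeff_C_mul, eval_pow, eval_X, coeff_X_pow] at h2
    rw [Finset.sum_congr rfl (fun i _ => mul_comm _ _), ← h2]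
    simp only [eq_comm]

/-- interpolation: values in `A` imply coefficients in `A` -/
theorem interp {R : Subring ℚ} (hR : Inv m R) {A : AddSubgroup (Mt m)}
    (hA : ∀ r ∈ R, ∀ x ∈ A, r • x ∈ A) {p : (Mt m)[X]} (hp : p.natDegree ≤ Bd m)
    (h : ∀ s : ℕ, s ≤ Bd m → p.eval (s : Mt m) ∈ A) (n : ℕ) : p.coeff n ∈ A := by
  obtain ⟨w, hw, hw2⟩ := weights hR (le_refl (Bd m))
  have hev : ∀ s : ℕ, p.eval (s : Mt m) = ∑ a ∈ range (Bd m + 1), ((s : ℚ) ^ a) • p.coeff a := by
    intro s
    rw [eval_eq_sum_range' (Nat.lt_succ_of_le hp)]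
    refine Finset.sum_congr rfl (fun a _ => ?_)
    have : ((s : Mt m)) ^ a = ((s : ℚ) ^ a) • (1 : Mt m) := by
      rw [← Nat.cast_pow, ← Nat.cast_pow, Nat.cast_smul_eq_nsmul, nsmul_eq_mul, mul_one]
    rw [this, mul_smul_comm, mul_one]
  have key : ∑ i ∈ range (Bd m + 1), w n i • p.eval (i : Mt m) = if n ≤ Bd m then p.coeff n else 0 := by
    have e1 : ∀ i ∈ range (Bd m + 1), w n i • p.eval (i : Mt m) =
        ∑ a ∈ range (Bd m + 1), (w n i * (i : ℚ) ^ a) • p.coeff a := by
      intro i _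
      rw [hev, Finset.smul_sum]
      exact Finset.sum_congr rfl (fun a _ => smul_smul _ _ _)
    rw [Finset.sum_congr rfl e1, Finset.sum_comm]
    have e2 : ∀ a ∈ range (Bd m + 1), ∑ i ∈ range (Bd m + 1), (w n i * (i : ℚ) ^ a) • p.coeff a =
        if a = n then p.coeff a else 0 := by
      intro a ha
      rw [← Finset.sum_smul, hw2 a (by have := Finset.mem_range.1 ha; omega) n]
      split
      · rw [one_smul]
      · rw [zero_smul]
    rw [Finset.sum_congr rfl e2, Finset.sum_ite_eq']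
    simp only [Finset.mem_range, Nat.lt_succ_iff]
  by_cases hn : n ≤ Bd m
  · rw [if_pos hn] at key
    rw [← key]
    refine A.sum_mem (fun i hi => ?_)
    have hi' : i ≤ Bd m := by have := Finset.mem_range.1 hi; omega
    exact hA _ (hw n i hi') _ (h i hi')
  · rw [coeff_eq_zero_of_natDegree_lt (by omega)]
    exact A.zero_mem

/-- evaluation at a natural number as a ring homomorphism -/
noncomputable def evn (m s : ℕ) : (Mt m)[X] →+* Mt m :=
  eval₂RingHom' (RingHom.id _) (s : Mt m) (fun a => (Nat.cast_commute s a).symm)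

theorem evn_apply (s : ℕ) (p : (Mt m)[X]) : evn m s p = p.eval (s : Mt m) := rfl

theorem evn_exP (s : ℕ) (x : Mt m) : evn m s (exP x) = ex ((s : ℚ) • x) := by
  rw [exP, map_sum, ex]
  refine Finset.sum_congr rfl (fun k _ => ?_)
  rw [evn_apply, eval_monomial, _root_.smul_pow, ← Nat.cast_pow, ← Nat.cast_pow, Nat.cast_smul_eq_nsmul,
    nsmul_eq_mul, smul_mul_assoc, Nat.cast_comm]

theorem exP_coeff_zero (x : Mt m) (hm : 2 ≤ m) : (exP x).coeff 0 = 1 := by
  obtain ⟨k, rfl⟩ : ∃ k, m = k + 2 := ⟨m - 2, by omega⟩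
  rw [exP, finsetSum_coeff, Finset.sum_range_succ']
  rw [Finset.sum_eq_zero]
  · simp
  · intro i _
    rw [coeff_monomial, if_neg (by omega)]

theorem exP_coeff_one (x : Mt m) (hm : 2 ≤ m) : (exP x).coeff 1 = x := by
  obtain ⟨k, rfl⟩ : ∃ k, m = k + 2 := ⟨m - 2, by omega⟩
  rw [exP, finsetSum_coeff, Finset.sum_range_succ', Finset.sum_range_succ']
  rw [Finset.sum_eq_zero]
  · simp [coeff_one]
  · intro i _
    rw [coeff_monomial, if_neg (by omega)]

theorem exP_deg (y : Mt m) : (exP y).natDegree ≤ m := by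
  refine natDegree_sum_le_of_forall_le _ _ (fun k hk => ?_)
  exact (natDegree_monomial_le _).trans (Finset.mem_range.1 hk).le

/-- the first step -/
theorem step1 {R : Subring ℚ} (hR : Inv m R) {A : AddSubgroup (Mt m)}
    (hA : ∀ r ∈ R, ∀ x ∈ A, r • x ∈ A) (hm : 2 ≤ m) {x g g' : Mt m} (hg : g * g' = 1)
    (h : ∀ s : ℕ, s ≤ Bd m → lg (ex ((s : ℚ) • x) * g * ex (-(s : ℚ) • x) * g') ∈ A) :
    x - g * x * g' ∈ A := by
  let G : (Mt m)[X] := exP x * C g * exP (-x) * C g'
  let P : (Mt m)[X] := ∑ j ∈ range m, ((-1 : ℚ) ^ (j + 1) / j) • (G - 1) ^ j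
  have hGd : (G - 1).natDegree ≤ 2 * m := by
    refine (natDegree_sub_le _ _).trans (max_le ?_ (by simp))
    refine natDegree_mul_le.trans ?_
    rw [natDegree_C, add_zero]
    refine natDegree_mul_le.trans ?_
    have h1 := exP_deg (-x)
    have h2 : (exP x * C g).natDegree ≤ m := by
      refine natDegree_mul_le.trans ?_
      rw [natDegree_C, add_zero]
      exact exP_deg x
    omega
  have hPd : P.natDegree ≤ Bd m := by
    have h3 : P.natDegree ≤ m * (2 * m) := by
      refine natDegree_sum_le_of_forall_le _ _ (fun j hj => ?_)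
      refine (natDegree_smul_le _ _).trans ?_
      refine natDegree_pow_le.trans ?_
      exact Nat.mul_le_mul (Finset.mem_range.1 hj).le hGd
    refine h3.trans ?_
    unfold Bd
    calc m * (2 * m) ≤ (4 * m + 4) ^ 2 := by nlinarith
      _ ≤ (4 * m + 4) ^ 4 := Nat.pow_le_pow_right (by omega) (by omega)
  have hev : ∀ s : ℕ, P.eval (s : Mt m) = lg (ex ((s : ℚ) • x) * g * ex (-(s : ℚ) • x) * g') := by
    intro s
    rw [← evn_apply]
    have hG : evn m s G = ex ((s : ℚ) • x) * g * ex (-(s : ℚ) • x) * g' := by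
      simp only [G, map_mul]
      rw [evn_exP, evn_exP, evn_apply, evn_apply, eval_C, eval_C, smul_neg, neg_smul]
    have e : ∀ (q : ℚ) (p : (Mt m)[X]), evn m s (q • p) = q • evn m s p := by
      intro q p
      rw [evn_apply, evn_apply, eval_smul]
    simp only [P]
    rw [map_sum, lg]
    refine Finset.sum_congr rfl (fun j _ => ?_)
    rw [e, map_pow, map_sub, hG, map_one]
  have hc := interp hR hA hPd (fun s hs => by rw [hev]; exact h s hs) 1
  have hG0 : (G - 1).coeff 0 = 0 := by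
    simp only [G]
    rw [coeff_sub, mul_coeff_zero, mul_coeff_zero, mul_coeff_zero, exP_coeff_zero _ hm,
      exP_coeff_zero _ hm, coeff_C_zero, coeff_C_zero, one_mul, mul_one, hg, coeff_one_zero,
      sub_self]
  have hG1 : (G - 1).coeff 1 = x - g * x * g' := by
    simp only [G]
    rw [coeff_sub, mul_coeff_one, mul_coeff_one, mul_coeff_one, mul_coeff_zero, mul_coeff_zero,
      exP_coeff_zero _ hm, exP_coeff_zero _ hm, exP_coeff_one _ hm, exP_coeff_one _ hm,
      coeff_C_zero, coeff_C_zero, coeff_C_succ, coeff_C_succ, coeff_one]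
    rw [if_neg (by omega)]
    simp only [mul_zero, zero_add, one_mul, mul_one, mul_neg, sub_zero]
    rw [add_mul, neg_mul, mul_assoc x g g', hg, mul_one]
    abel
  have hpow : ∀ j, ((G - 1) ^ (j + 2)).coeff 1 = 0 := by
    intro j
    have h0 : ((G - 1) ^ (j + 1)).coeff 0 = 0 := by
      rw [pow_succ, mul_coeff_zero, hG0, mul_zero]
    rw [pow_succ, mul_coeff_one, h0, hG0, zero_mul, mul_zero, add_zero]
  have hP1 : P.coeff 1 = x - g * x * g' := by
    obtain ⟨k, hk⟩ : ∃ k, m = k + 2 := ⟨m - 2, by omega⟩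
    simp only [P]
    rw [finsetSum_coeff]
    rw [Finset.sum_eq_single 1]
    · simp [← hG1]
    · intro j _ hj1
      rcases j with _ | _ | j
      · simp
      · exact absurd rfl hj1
      · rw [coeff_smul, hpow, smul_zero]
    · intro h1
      exact absurd (Finset.mem_range.2 (by omega)) h1
  rw [hP1] at hc
  exact hc

/-- the second step -/
theorem step2 {R : Subring ℚ} (hR : Inv m R) {A : AddSubgroup (Mt m)}
    (hA : ∀ r ∈ R, ∀ x ∈ A, r • x ∈ A) (hm : 2 ≤ m) {x y : Mt m}
    (h : ∀ t : ℕ, t ≤ Bd m → x - ex ((t : ℚ) • y) * x * ex (-(t : ℚ) • y) ∈ A) :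
    x * y - y * x ∈ A := by
  let P : (Mt m)[X] := C x - exP y * C x * exP (-y)
  have hPd : P.natDegree ≤ Bd m := by
    refine (natDegree_sub_le _ _).trans (max_le (by simp) ?_)
    refine natDegree_mul_le.trans ?_
    have h1 := exP_deg (-y)
    have h2 : (exP y * C x).natDegree ≤ m := by
      refine natDegree_mul_le.trans ?_
      rw [natDegree_C, add_zero]
      exact exP_deg y
    unfold Bd
    have h3 : 4 * m + 4 ≤ (4 * m + 4) ^ 4 := Nat.le_self_pow (by omega) _
    omega
  have hev : ∀ s : ℕ, P.eval (s : Mt m) = x - ex ((s : ℚ) • y) * x * ex (-(s : ℚ) • y) := by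
    intro s
    rw [← evn_apply]
    simp only [P, map_sub, map_mul]
    rw [evn_exP, evn_exP, evn_apply, eval_C, smul_neg, neg_smul]
  have hc := interp hR hA hPd (fun s hs => by rw [hev]; exact h s hs) 1
  have hP1 : P.coeff 1 = x * y - y * x := by
    simp only [P]
    rw [coeff_sub, mul_coeff_one, mul_coeff_one, mul_coeff_zero, exP_coeff_zero _ hm,
      exP_coeff_zero _ hm, exP_coeff_one _ hm, exP_coeff_one _ hm, coeff_C_zero, coeff_C_succ]
    simp only [mul_zero, zero_add, one_mul, mul_one, mul_neg]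
    abel
  rw [hP1] at hc
  exact hc

theorem van (hexp : S_exp) : S_van := by
  intro m R hR A hA x hx y hy h
  by_cases hm : 2 ≤ m
  · refine step2 hR hA hm (fun t ht => ?_)
    refine step1 hR hA hm ?_ (fun s hs => h s t hs ht)
    have h1 := (hexp m).2.2 y hy (t : ℚ) (-(t : ℚ))
    rw [h1, add_neg_cancel, zero_smul]
    obtain ⟨k, rfl⟩ : ∃ k, m = k + 1 := ⟨m - 1, by omega⟩
    rw [ex, Finset.sum_range_succ', Finset.sum_eq_zero]
    · simp
    · intro i _
      rw [zero_pow (by omega), smul_zero]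
  · have hz : ∀ z ∈ J m, z = 0 := by
      intro z hz
      ext i j
      exact hz i j (by
        have := i.2
        have := j.2
        show (j : ℕ) ≤ i
        omega)
    rw [hz x hx, zero_mul, mul_zero, sub_zero]
    exact A.zero_mem

end W479.RG
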